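import Pool.Agent.Helper38.WY.Goals4
import Pool.Agent.Helper72.RL.ISO
import Pool.Agent.Helper39.RP.SigA

/-!
# Project WY (MP_fc6b1e_nt), packet Z_KLG: the kernel of the logarithm on the units of a local field
-/

set_option autoImplicit false

namespace Pool.Agent.Helper35.WY

open Module Pool.Agent.Helper51.SigLeo

theorem z_klg : Pool.Agent.Helper38.WY.Z_KLG := by
  intro p _ L 𝓕 _ u hu hn hL
  have hp : p.Prime := Fact.out
  have hp0 : (0 : ℝ) < p := by exact_mod_cast hp.pos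
  have hproper : ProperSpace 𝓕 := FiniteDimensional.proper ℚ_[p] 𝓕
  let v : 𝓕 := ⟨(u : ℂ_[p]), hu⟩
  have hv : ‖v‖ = 1 := hn
  have hc : IsCompact (Metric.closedBall (0 : 𝓕) 1) := isCompact_closedBall 0 1
  obtain ⟨a, -, φ, hφ, hlim⟩ := hc.tendsto_subseq (x := fun n : ℕ ↦ v ^ n) (fun n ↦ by
    rw [mem_closedBall_zero_iff, norm_pow, hv, one_pow])
  have hcau := hlim.cauchySeq
  rw [Metric.cauchySeq_iff'] at hcau
  obtain ⟨N, hN⟩ := hcau ((1 / p : ℝ) ^ 2) (by positivity)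
  have h1 := hN (N + 1) (Nat.le_succ N)
  have hlt : φ N < φ (N + 1) := hφ (Nat.lt_succ_self N)
  have h2 : ‖(u : ℂ_[p]) ^ φ (N + 1) - (u : ℂ_[p]) ^ φ N‖ < (1 / p : ℝ) ^ 2 := by
    rw [dist_eq_norm] at h1
    exact h1
  have h3 : (u : ℂ_[p]) ^ φ (N + 1) - (u : ℂ_[p]) ^ φ N =
      (u : ℂ_[p]) ^ φ N * (((u ^ (φ (N + 1) - φ N) : ℂ_[p]ˣ) : ℂ_[p]) - 1) := by
    rw [Units.val_pow_eq_pow_val, mul_sub, ← pow_add, Nat.add_sub_cancel' hlt.le, mul_one]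
  rw [h3, norm_mul, norm_pow, hn, one_pow, one_mul] at h2
  have h4 := Pool.Agent.Helper72.RL.l_iso p ℂ_[p] L _ h2.le
  rw [Pool.Agent.Helper39.RP.log_pow, hL, smul_zero, norm_zero] at h4
  refine ⟨φ (N + 1) - φ N, Nat.sub_pos_of_lt hlt, ?_⟩
  exact Units.ext (sub_eq_zero.1 (norm_eq_zero.1 h4.symm))

end Pool.Agent.Helper35.WY
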