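import Pool.Agent.Helper38.WY.Goals2
import Pool.Agent.Helper8.WY.YKEX
import Pool.Agent.Helper79.RD.GOO

/-!
# Project WY (MP_fc6b1e_nt), packet Y_LNF: the line
-/

set_option autoImplicit false

namespace Pool.Agent.Helper35.WY

open Module Pool.Agent.Helper38.WY
open Pool.Agent.Helper79.RD (fix_pow)

/-! ### Roots of unity -/

theorem root_pow {H : Type} [Field H] (f : H →* H) (N : ℕ) (hN : 0 < N) :
    ∃ r : ℤ, ∀ ζ : H, ζ ^ N = 1 → f ζ = ζ ^ r := by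
  have : NeZero N := ⟨hN.ne'⟩
  obtain ⟨r, hr⟩ := MonoidHom.map_cyclic (restrictRootsOfUnity f N)
  refine ⟨r, fun ζ hζ ↦ ?_⟩
  have h1 := hr (rootsOfUnity.mkOfPowEq ζ hζ)
  have h2 := congrArg (fun u : rootsOfUnity N H ↦ ((u : Hˣ) : H)) h1
  simpa using h2

theorem int_rel (p : ℕ) (hp : p.Prime) (u u' : ℤ) :
    ∃ a b : ℤ, (¬ (p : ℤ) ∣ a ∨ ¬ (p : ℤ) ∣ b) ∧ u * a + u' * b = 0 := by
  by_cases h : u = 0 ∧ u' = 0
  · refine ⟨1, 0, Or.inl ?_, by rw [h.1, h.2]; ring⟩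
    intro h1
    have h2 := Int.natCast_dvd_natCast.1 (by exact_mod_cast h1 : (p : ℤ) ∣ ((1 : ℕ) : ℤ))
    exact hp.one_lt.ne' (Nat.dvd_one.1 h2)
  · have hg : 0 < Int.gcd u u' := by
      rw [Nat.pos_iff_ne_zero, Ne, Int.gcd_eq_zero_iff]
      exact h
    refine ⟨u' / (Int.gcd u u' : ℤ), -(u / (Int.gcd u u' : ℤ)), ?_, ?_⟩
    · by_contra hcon
      push Not at hcon
      obtain ⟨h1, h2⟩ := hcon
      rw [dvd_neg] at h2
      have h3 := Int.gcd_div_gcd_div_gcd hg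
      have h4 := Int.dvd_coe_gcd h2 h1
      rw [h3] at h4
      have h5 := Int.natCast_dvd_natCast.1 h4
      exact hp.one_lt.ne' (Nat.dvd_one.1 h5)
    · obtain ⟨k, hk⟩ := Int.gcd_dvd_left (a := u) (b := u')
      obtain ⟨l, hl⟩ := Int.gcd_dvd_right (a := u) (b := u')
      have hg' : (Int.gcd u u' : ℤ) ≠ 0 := by exact_mod_cast hg.ne'
      have e1 : u / (Int.gcd u u' : ℤ) = k := Int.ediv_eq_of_eq_mul_right hg' hk
      have e2 : u' / (Int.gcd u u' : ℤ) = l := Int.ediv_eq_of_eq_mul_right hg' hl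
      rw [e1, e2]
      generalize (Int.gcd u u' : ℤ) = G at *
      rw [hk, hl]
      ring

theorem cyc_rel {H : Type} [Field H] (p : ℕ) (hp : p.Prime) (N : ℕ) (hN : 0 < N) (θ θ' : H)
    (h : θ ^ N = 1) (h' : θ' ^ N = 1) :
    ∃ a b : ℤ, (¬ (p : ℤ) ∣ a ∨ ¬ (p : ℤ) ∣ b) ∧ θ ^ a * θ' ^ b = 1 := by
  have : NeZero N := ⟨hN.ne'⟩
  obtain ⟨g, hg⟩ := IsCyclic.exists_generator (α := rootsOfUnity N H)
  obtain ⟨u, hu⟩ := hg (rootsOfUnity.mkOfPowEq θ h)
  obtain ⟨u', hu'⟩ := hg (rootsOfUnity.mkOfPowEq θ' h')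
  have e1 : θ = ((g : Hˣ) : H) ^ u := by
    have h2 := congrArg (fun u : rootsOfUnity N H ↦ ((u : Hˣ) : H)) hu
    simpa using h2.symm
  have e2 : θ' = ((g : Hˣ) : H) ^ u' := by
    have h2 := congrArg (fun u : rootsOfUnity N H ↦ ((u : Hˣ) : H)) hu'
    simpa using h2.symm
  obtain ⟨a, b, hab, h0⟩ := int_rel p hp u u'
  refine ⟨a, b, hab, ?_⟩
  have hg0 : ((g : Hˣ) : H) ≠ 0 := Units.ne_zero _
  rw [e1, e2, ← zpow_mul, ← zpow_mul, ← zpow_add₀ hg0, h0, zpow_zero]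

/-- The exponent `r` is congruent to `n`. -/
theorem exp_congr {H : Type} [Field H] {p : ℕ} {ε : H} (hε : IsPrimitiveRoot ε p) (hp : p.Prime)
    {r : ℤ} {n : ℕ} (h : ε ^ r = ε ^ n) : ∃ l : ℤ, r = n + p * l := by
  have h0 : ε ≠ 0 := hε.ne_zero hp.ne_zero
  have h1 : ε ^ (r - n) = 1 := by
    rw [zpow_sub₀ h0, zpow_natCast, h]
    exact div_self (pow_ne_zero _ h0)
  obtain ⟨l, hl⟩ := (hε.zpow_eq_one_iff_dvd _).1 h1
  exact ⟨l, by rw [← hl]; ring⟩

/-! ### Case A -/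

section caseA

variable {p : ℕ} [hpf : Fact p.Prime] {𝓕 : IntermediateField ℚ_[p] ℂ_[p]}

theorem sigF_A {ε b₀ x : 𝓕} (hx : x ≠ 0) (h : SigF ε (b₀ : ℂ_[p]) x) :
    ∃ (y ξ : 𝓕) (N : ℕ), y ≠ 0 ∧ 0 < N ∧ ξ ^ N = 1 ∧ x = y ^ p * ξ := by
  have hp := hpf.out
  obtain ⟨z, n, hn, h1, h2⟩ := h
  obtain ⟨Y, hY⟩ : ∃ Y : ℕ → 𝓕, ∀ i, Y i = ∑ j ∈ Finset.range p, z j * (ε ^ i * b₀) ^ j :=
    ⟨fun i ↦ ∑ j ∈ Finset.range p, z j * (ε ^ i * b₀) ^ j, fun _ ↦ rfl⟩
  have hc : ∀ i, cjs p (ε : ℂ_[p]) (b₀ : ℂ_[p]) (fun j ↦ (z j : ℂ_[p])) i = (Y i : ℂ_[p]) := by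
    intro i
    rw [hY]
    unfold cjs
    push_cast
    rfl
  have h1' : ∏ i ∈ Finset.range p, Y i = x := by
    apply Subtype.ext
    rw [← h1]
    push_cast
    exact Finset.prod_congr rfl fun i _ ↦ (hc i).symm
  have h2' : ∀ i, Y i ^ n = Y 0 ^ n := by
    intro i
    apply Subtype.ext
    have e := h2 i
    rw [hc, hc] at e
    push_cast
    exact e
  have hY0 : Y 0 ≠ 0 := by
    intro e1
    apply hx
    rw [← h1']
    exact Finset.prod_eq_zero (Finset.mem_range.2 hp.pos) e1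
  refine ⟨Y 0, ∏ i ∈ Finset.range p, Y i / Y 0, n, hY0, hn, ?_, ?_⟩
  · rw [← Finset.prod_pow]
    refine Finset.prod_eq_one fun i _ ↦ ?_
    rw [div_pow, h2', div_self (pow_ne_zero _ hY0)]
  · rw [Finset.prod_div_distrib, h1', Finset.prod_const, Finset.card_range,
      mul_div_cancel₀ _ (pow_ne_zero _ hY0)]

theorem sig_one {ε α b₀ : 𝓕} (hε : IsPrimitiveRoot ε p) (hα : α ≠ 0) (hb : b₀ ^ p = α)
    (σ : 𝓕 ≃ₐ[ℚ_[p]] 𝓕) (t : ℕ) (e : 𝓕) (hσε : σ ε = ε)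
    (hσα : σ α = α * e ^ p) (hord : orderOf σ = p ^ t)
    (hprod : 0 < t → ∏ i ∈ Finset.range (p ^ t), (σ ^ i) e ≠ 1) : σ = 1 := by
  have hp := hpf.out
  have hb0 : b₀ ≠ 0 := by
    rintro rfl
    rw [zero_pow hp.ne_zero] at hb
    exact hα hb.symm
  have he0 : e ≠ 0 := by
    rintro rfl
    rw [zero_pow hp.ne_zero, mul_zero] at hσα
    exact hα ((map_eq_zero σ).1 hσα)
  have : NeZero p := ⟨hp.ne_zero⟩
  have h1 : (σ b₀ / (b₀ * e)) ^ p = 1 := by
    rw [div_pow, ← map_pow, hb, hσα, mul_pow, hb]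
    exact div_self (mul_ne_zero hα (pow_ne_zero _ he0))
  obtain ⟨l, -, hl⟩ := hε.eq_pow_of_pow_eq_one h1
  have h2 : σ b₀ = ε ^ l * (b₀ * e) := by
    rw [hl, div_mul_cancel₀ _ (mul_ne_zero hb0 he0)]
  have h3 : ∀ i : ℕ, (σ ^ i) b₀ = ε ^ (l * i) * b₀ * ∏ j ∈ Finset.range i, (σ ^ j) e := by
    intro i
    induction i with
    | zero => simp
    | succ i ih =>
      have e1 : (σ ^ i) ε = ε := fix_pow (K := ℚ_[p]) (Ω := 𝓕) hσε i
      rw [pow_succ, AlgEquiv.mul_apply, h2, map_mul, map_pow, e1, map_mul, ih,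
        Finset.prod_range_succ, Nat.mul_succ, pow_add]
      ring
  rcases Nat.eq_zero_or_pos t with ht | ht
  · rw [ht, pow_zero] at hord
    exact orderOf_eq_one_iff.1 hord
  · exfalso
    apply hprod ht
    have h4 := h3 (p ^ t)
    have h5 : σ ^ p ^ t = 1 := by rw [← hord]; exact pow_orderOf_eq_one σ
    have h6 : ε ^ (l * p ^ t) = 1 := by
      rw [hε.pow_eq_one_iff_dvd]
      exact (dvd_pow_self p ht.ne').mul_left l
    rw [h5, h6, one_mul, AlgEquiv.one_apply] at h4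
    exact mul_left_cancel₀ hb0 (h4.symm.trans (mul_one b₀).symm)

end caseA

/-! ### Case B -/

theorem caseB {p : ℕ} [hpf : Fact p.Prime] (𝓕 : IntermediateField ℚ_[p] ℂ_[p])
    [FiniteDimensional ℚ_[p] 𝓕] (ε α : 𝓕) (β : ℂ_[p]) (hε : IsPrimitiveRoot ε p) (hα : α ≠ 0)
    (hβ : β ^ p = α) (hβ𝓕 : β ∉ 𝓕) (σ : 𝓕 ≃ₐ[ℚ_[p]] 𝓕) (t : ℕ) (e : 𝓕) (hσε : σ ε = ε)
    (hσα : σ α = α * e ^ p) (hord : orderOf σ = p ^ t)
    (hprod : 0 < t → ∏ i ∈ Finset.range (p ^ t), (σ ^ i) e ≠ 1) :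
    ∃ (ℋ : IntermediateField ℚ_[p] ℂ_[p]) (ι : 𝓕 →ₐ[ℚ_[p]] ℋ) (γ S : ℋ ≃ₐ[ℚ_[p]] ℋ),
      (∀ y : 𝓕, S (ι y) = ι (σ y)) ∧
      (∀ y : ℋ, S y = y → γ y = y ∧ ∃ w : 𝓕, ι w = y ∧ σ w = w) ∧
      (∀ x : 𝓕, x ≠ 0 → σ x = x → SigF ε β x → ∃ (y : ℋ) (N : ℕ), y ≠ 0 ∧
        ∏ i ∈ Finset.range p, (γ ^ i) y = ι x ∧ 0 < N ∧ (S y / y) ^ N = 1) ∧
      ∀ (g : 𝓕 ≃ₐ[ℚ_[p]] 𝓕) (n d : ℕ) (c : 𝓕), g ε = ε ^ n → g α = α ^ n * c ^ p →
        d.Coprime p → g ^ d = 1 → g * σ = σ * g →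
        ∃ g₁ : ℋ ≃ₐ[ℚ_[p]] ℋ, (∀ y : 𝓕, g₁ (ι y) = ι (g y)) ∧ Commute g₁ γ ∧ Commute g₁ S := by
  classical
  have hp := hpf.out
  have : NeZero p := ⟨hp.ne_zero⟩
  obtain ⟨ℋ, h, b, γ, hfin, hb, hspan, γF, γb, hex⟩ :=
    Pool.Agent.Helper8.WY.y_kex p ℂ_[p] 𝓕 ε α β hε hα hβ hβ𝓕
  set ι : 𝓕 →ₐ[ℚ_[p]] ℋ := IntermediateField.inclusion h with hι
  have hιinj : Function.Injective ι := ι.injective
  have hιc : ∀ y : 𝓕, ((ι y : ℋ) : ℂ_[p]) = (y : ℂ_[p]) := fun _ ↦ rfl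
  have hbp : b ^ p = ι α := by
    apply Subtype.ext
    show (b : ℂ_[p]) ^ p = ((ι α : ℋ) : ℂ_[p])
    rw [hb, hβ]
    rfl
  have hb0 : b ≠ 0 := by
    rintro rfl
    rw [zero_pow hp.ne_zero] at hbp
    exact hα (hιinj (by rw [map_zero]; exact hbp.symm))
  have hει : IsPrimitiveRoot (ι ε) p := hε.map_of_injective hιinj
  have hεp : (ι ε) ^ p = 1 := hει.pow_eq_one
  -- automorphisms
  have hext : ∀ f f' : ℋ ≃ₐ[ℚ_[p]] ℋ, (∀ y : 𝓕, f (ι y) = f' (ι y)) → f b = f' b → f = f' := by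
    intro f f' e1 e2
    ext y
    obtain ⟨z, hz⟩ := hspan y
    congr 1
    rw [hz, map_sum, map_sum]
    refine Finset.sum_congr rfl fun j _ ↦ ?_
    rw [map_mul, map_mul, map_pow, map_pow, e1, e2]
  have γpF : ∀ (i : ℕ) (y : 𝓕), (γ ^ i) (ι y) = ι y := by
    intro i
    induction i with
    | zero => intro y; rfl
    | succ i ih => intro y; rw [pow_succ, AlgEquiv.mul_apply, γF, ih]
  have γpb : ∀ i : ℕ, (γ ^ i) b = (ι ε) ^ i * b := by
    intro i
    induction i with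
    | zero => rw [pow_zero, pow_zero, one_mul]; rfl
    | succ i ih =>
      rw [pow_succ, AlgEquiv.mul_apply, γb, map_mul, γpF, ih, pow_succ]
      ring
  have hγp : γ ^ p = 1 := hext _ _ (fun y ↦ γpF p y) (by
    rw [γpb, hεp, one_mul]; rfl)
  have hgal : ∀ A : ℋ ≃ₐ[ℚ_[p]] ℋ, (∀ y : 𝓕, A (ι y) = ι y) → ∃ i : ℕ, A = γ ^ i := by
    intro A hA
    have e1 : (A b / b) ^ p = 1 := by
      rw [div_pow, ← map_pow, hbp, hA]
      exact div_self (by rw [← hbp]; exact pow_ne_zero _ hb0)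
    obtain ⟨i, -, hi⟩ := hει.eq_pow_of_pow_eq_one e1
    refine ⟨i, hext _ _ (fun y ↦ ?_) ?_⟩
    · rw [hA, γpF]
    · rw [γpb, hi, div_mul_cancel₀ _ hb0]
  -- the automorphism `S`
  obtain ⟨S, SF, Sγ, ⟨m, j, hj, hmj⟩⟩ : ∃ S : ℋ ≃ₐ[ℚ_[p]] ℋ, (∀ y : 𝓕, S (ι y) = ι (σ y)) ∧
      Commute S γ ∧ ∃ m j : ℕ, ¬ p ∣ j ∧ S ^ m = γ ^ j := by
    rcases Nat.eq_zero_or_pos t with ht | ht
    · have hσ1 : σ = 1 := by
        rw [ht, pow_zero] at hord
        exact orderOf_eq_one_iff.1 hord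
      refine ⟨γ, fun y ↦ ?_, Commute.refl γ, 1, 1, ?_, rfl⟩
      · rw [γF, hσ1]
        rfl
      · intro h1
        exact hp.one_lt.ne' (Nat.dvd_one.1 h1)
    · obtain ⟨S, SF, Sb, Sγ⟩ := hex σ 1 e (by rw [pow_one]; exact hσε) (by rw [pow_one]; exact hσα)
      have SpF : ∀ (i : ℕ) (y : 𝓕), (S ^ i) (ι y) = ι ((σ ^ i) y) := by
        intro i
        induction i with
        | zero => intro y; rfl
        | succ i ih =>
          intro y
          rw [pow_succ, AlgEquiv.mul_apply, SF, ih, pow_succ, AlgEquiv.mul_apply]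
      have Spb : ∀ i : ℕ, (S ^ i) b = b * ι (∏ j ∈ Finset.range i, (σ ^ j) e) := by
        intro i
        induction i with
        | zero => simp
        | succ i ih =>
          rw [pow_succ, AlgEquiv.mul_apply, Sb, pow_one, map_mul, ih, SpF, Finset.prod_range_succ,
            map_mul]
          ring
      have h5 : σ ^ p ^ t = 1 := by rw [← hord]; exact pow_orderOf_eq_one σ
      obtain ⟨j, hj⟩ := hgal (S ^ p ^ t) (fun y ↦ by rw [SpF, h5]; rfl)
      refine ⟨S, SF, ?_, p ^ t, j, ?_, hj⟩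
      · ext y
        exact congrArg Subtype.val (Sγ y)
      · rintro ⟨q, rfl⟩
        apply hprod ht
        have e1 := Spb (p ^ t)
        rw [hj, γpb, pow_mul, hεp, one_pow, one_mul] at e1
        apply hιinj
        rw [map_one]
        exact mul_left_cancel₀ hb0 (e1.symm.trans (mul_one b).symm)
  have hγS : ∃ k : ℕ, γ = S ^ k := by
    have hc : j.Coprime p := (Nat.Coprime.symm ((Nat.Prime.coprime_iff_not_dvd hp).2 hj))
    obtain ⟨j', -, hj'⟩ := Nat.exists_mul_mod_eq_one_of_coprime hc hp.one_lt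
    refine ⟨m * j', ?_⟩
    rw [pow_mul, hmj, ← pow_mul]
    conv_rhs => rw [← Nat.mod_add_div (j * j') p, hj', pow_add, pow_one, pow_mul, hγp, one_pow,
      mul_one]
  have hpH : (p : ℋ) ≠ 0 := by
    have : CharZero ℋ := charZero_of_injective_algebraMap (algebraMap ℚ_[p] ℋ).injective
    exact Nat.cast_ne_zero.2 hp.ne_zero
  refine ⟨ℋ, ι, γ, S, SF, ?_, ?_, ?_⟩
  · -- the fixed field
    intro u hu
    have hγu : γ u = u := by
      obtain ⟨k, hk⟩ := hγS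
      rw [hk]
      exact fix_pow (K := ℚ_[p]) (Ω := ℋ) hu k
    refine ⟨hγu, ?_⟩
    obtain ⟨w, hw⟩ : ∃ w : 𝓕, ι w = u := by
      obtain ⟨z, hz⟩ := hspan u
      refine ⟨z 0, ?_⟩
      have e1 : ∑ i ∈ Finset.range p, (γ ^ i) u = p * u := by
        rw [Finset.sum_congr rfl fun i _ ↦ fix_pow (K := ℚ_[p]) (Ω := ℋ) hγu i, Finset.sum_const,
          Finset.card_range, nsmul_eq_mul]
      have e2 : ∑ i ∈ Finset.range p, (γ ^ i) u = p * ι (z 0) := by
        have e3 : ∀ i ∈ Finset.range p, (γ ^ i) u =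
            ∑ j ∈ Finset.range p, ι (z j) * b ^ j * ((ι ε) ^ j) ^ i := by
          intro i _
          conv_lhs => rw [hz]
          rw [map_sum]
          refine Finset.sum_congr rfl fun j _ ↦ ?_
          rw [map_mul, γpF, map_pow, γpb, mul_pow, ← pow_mul, ← pow_mul, mul_comm j i]
          ring
        rw [Finset.sum_congr rfl e3, Finset.sum_comm]
        rw [Finset.sum_eq_single 0]
        · rw [pow_zero, mul_one]
          simp only [pow_zero, one_pow, mul_one]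
          rw [Finset.sum_const, Finset.card_range, nsmul_eq_mul]
        · intro j hj hj0
          rw [← Finset.mul_sum]
          have e4 : (ι ε) ^ j ≠ 1 := by
            intro e5
            have e6 := (hει.pow_eq_one_iff_dvd j).1 e5
            exact absurd (Nat.le_of_dvd (Nat.pos_of_ne_zero hj0) e6)
              (not_le.2 (Finset.mem_range.1 hj))
          have e5 : (∑ i ∈ Finset.range p, ((ι ε) ^ j) ^ i) * ((ι ε) ^ j - 1) = 0 := by
            rw [geom_sum_mul, ← pow_mul, mul_comm j p, pow_mul, hεp, one_pow, sub_self]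
          rw [(mul_eq_zero.1 e5).resolve_right (sub_ne_zero.2 e4), mul_zero]
        · intro e4
          exact absurd (Finset.mem_range.2 hp.pos) e4
      rw [e1] at e2
      exact (mul_left_cancel₀ hpH e2).symm
    refine ⟨w, hw, hιinj ?_⟩
    rw [← SF, hw, hu]
  · -- the element `y`
    intro x hx hσx hS
    obtain ⟨z, n, hn, h1, h2⟩ := hS
    obtain ⟨y, hy⟩ : ∃ y : ℋ, y = ∑ j ∈ Finset.range p, ι (z j) * b ^ j := ⟨_, rfl⟩
    have hc : ∀ i, (((γ ^ i) y : ℋ) : ℂ_[p]) =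
        cjs p (ε : ℂ_[p]) β (fun j ↦ (z j : ℂ_[p])) i := by
      intro i
      have e1 : (γ ^ i) y = ∑ j ∈ Finset.range p, ι (z j) * ((ι ε) ^ i * b) ^ j := by
        rw [hy, map_sum]
        refine Finset.sum_congr rfl fun j _ ↦ ?_
        rw [map_mul, γpF, map_pow, γpb]
      rw [e1]
      unfold cjs
      push_cast
      refine Finset.sum_congr rfl fun j _ ↦ ?_
      rw [hιc, hιc, hb]
    have h1' : ∏ i ∈ Finset.range p, (γ ^ i) y = ι x := by
      apply Subtype.ext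
      rw [hιc, ← h1]
      push_cast
      exact Finset.prod_congr rfl fun i _ ↦ hc i
    have h2' : ∀ i, (γ ^ i) y ^ n = y ^ n := by
      intro i
      apply Subtype.ext
      have e := h2 i
      have e0 := hc 0
      rw [pow_zero, AlgEquiv.one_apply] at e0
      rw [← hc, ← e0] at e
      push_cast
      exact e
    have hy0 : y ≠ 0 := by
      rintro hy0
      apply hx
      apply hιinj
      rw [map_zero, ← h1']
      refine Finset.prod_eq_zero (Finset.mem_range.2 hp.pos) ?_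
      rw [hy0, map_zero]
    have hgy0 : ∀ i : ℕ, (γ ^ i) y ≠ 0 := fun i ↦ (map_ne_zero _).2 hy0
    have hcSγ : ∀ (i : ℕ) (y : ℋ), (γ ^ i) (S y) = S ((γ ^ i) y) := by
      intro i y
      exact AlgEquiv.congr_fun (Sγ.symm.pow_left i) y
    have hN1 : ∏ i ∈ Finset.range p, (γ ^ i) (S y / y) = 1 := by
      have e1 : ∀ i ∈ Finset.range p, (γ ^ i) (S y / y) = S ((γ ^ i) y) / (γ ^ i) y := by
        intro i _
        rw [map_div₀, hcSγ]
      rw [Finset.prod_congr rfl e1, Finset.prod_div_distrib, ← map_prod, h1', SF, hσx]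
      exact div_self (fun e2 ↦ hx (hιinj (by rw [e2, map_zero])))
    have hN2 : ∀ i : ℕ, ((γ ^ i) (S y / y)) ^ n = (S y / y) ^ n := by
      intro i
      rw [map_div₀, hcSγ, div_pow, div_pow, ← map_pow S ((γ ^ i) y) n, h2', map_pow]
    refine ⟨y, n * p, hy0, h1', Nat.mul_pos hn hp.pos, ?_⟩
    have e3 : (∏ i ∈ Finset.range p, (γ ^ i) (S y / y)) ^ n = (S y / y) ^ (n * p) := by
      rw [← Finset.prod_pow, Finset.prod_congr rfl fun i _ ↦ hN2 i, Finset.prod_const,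
        Finset.card_range, pow_mul]
    rw [← e3, hN1, one_pow]
  · -- the extension of `g`
    intro g n d c hgε hgα hdp hgd hgσ
    obtain ⟨g', g'F, g'b, hcomm⟩ := hex g n c hgε hgα
    have g'pF : ∀ (i : ℕ) (y : 𝓕), (g' ^ i) (ι y) = ι ((g ^ i) y) := by
      intro i
      induction i with
      | zero => intro y; rfl
      | succ i ih =>
        intro y
        rw [pow_succ, AlgEquiv.mul_apply, g'F, ih, pow_succ, AlgEquiv.mul_apply]
    have hcg : Commute g' γ := by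
      ext y
      exact congrArg Subtype.val (hcomm y)
    obtain ⟨i, hi⟩ : ∃ i : ℕ, g' * S = γ ^ i * (S * g') := by
      obtain ⟨i, hi⟩ := hgal ((g' * S) * (S * g')⁻¹) (fun y ↦ by
        obtain ⟨z, rfl⟩ : ∃ z, (σ * g) z = y := (σ * g).surjective y
        have e1 : ι ((σ * g) z) = (S * g') (ι z) := by
          rw [AlgEquiv.mul_apply, AlgEquiv.mul_apply, g'F, SF]
        have e2 : ι ((σ * g) z) = (g' * S) (ι z) := by
          rw [← hgσ, AlgEquiv.mul_apply, AlgEquiv.mul_apply, SF, g'F]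
        conv_lhs => rw [e1]
        rw [← AlgEquiv.mul_apply, inv_mul_cancel_right, e2])
      exact ⟨i, by rw [← hi, inv_mul_cancel_right]⟩
    have hgk : ∀ k : ℕ, g' ^ k * S = γ ^ (i * k) * (S * g' ^ k) := by
      intro k
      induction k with
      | zero => rw [pow_zero, Nat.mul_zero, pow_zero, one_mul, one_mul, mul_one]
      | succ k ih =>
        have e1 : g' ^ k * γ ^ i = γ ^ i * g' ^ k := (hcg.pow_pow k i).eq
        calc g' ^ (k + 1) * S = g' ^ k * (g' * S) := by rw [pow_succ, mul_assoc]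
          _ = g' ^ k * γ ^ i * S * g' := by rw [hi]; simp only [mul_assoc]
          _ = γ ^ i * (g' ^ k * S) * g' := by rw [e1]; simp only [mul_assoc]
          _ = γ ^ i * (γ ^ (i * k) * (S * g' ^ k)) * g' := by rw [ih]
          _ = γ ^ (i * (k + 1)) * (S * g' ^ (k + 1)) := by
            rw [Nat.mul_succ, add_comm (i * k) i, pow_add, pow_succ g' k]
            simp only [mul_assoc]
    obtain ⟨m, hm1, hm2⟩ := Nat.chineseRemainder hdp 1 0
    have hpm : p ∣ m := (Nat.modEq_zero_iff_dvd).1 hm2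
    have hgm : g ^ m = g := by
      have e1 : m ≡ 1 [MOD orderOf g] := hm1.of_dvd (orderOf_dvd_of_pow_eq_one hgd)
      have e2 := (pow_eq_pow_iff_modEq (x := g)).2 e1
      rwa [pow_one] at e2
    refine ⟨g' ^ m, fun y ↦ by rw [g'pF, hgm], hcg.pow_left m, ?_⟩
    have e3 : γ ^ (i * m) = 1 := by
      obtain ⟨q, rfl⟩ := hpm
      rw [show i * (p * q) = p * (i * q) by ring, pow_mul, hγp, one_pow]
    have e4 := hgk m
    rw [e3, one_mul] at e4
    exact e4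

/-! ### The theorem -/

theorem y_lnf : Y_LNF := by
  intro p hpf 𝓕 _ ε α β hε hα hβ σ t e hσε hσα hord hprod
  have hp := hpf.out
  by_cases hβ𝓕 : β ∈ 𝓕
  · -- case A
    obtain ⟨b₀, rfl⟩ : ∃ b₀ : 𝓕, (b₀ : ℂ_[p]) = β := ⟨⟨β, hβ𝓕⟩, rfl⟩
    have hb : b₀ ^ p = α := by
      apply Subtype.ext
      push_cast
      exact hβ
    have hσ1 : σ = 1 := sig_one hε hα hb σ t e hσε hσα hord hprod
    refine ⟨?_, ?_⟩
    · intro x x' hx hx' _ _ hs hs'
      obtain ⟨y, ξ, N, hy, hN, hξ, rfl⟩ := sigF_A hx hs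
      obtain ⟨y', ξ', N', hy', hN', hξ', rfl⟩ := sigF_A hx' hs'
      obtain ⟨a, b, hab, h0⟩ := cyc_rel p hp (N * N') (Nat.mul_pos hN hN') ξ ξ'
        (by rw [pow_mul, hξ, one_pow]) (by rw [mul_comm, pow_mul, hξ', one_pow])
      refine ⟨a, b, y ^ a * y' ^ b, hab, mul_ne_zero (zpow_ne_zero _ hy) (zpow_ne_zero _ hy'),
        by rw [hσ1]; rfl, ?_⟩
      calc (y ^ p * ξ) ^ a * (y' ^ p * ξ') ^ b
          = (y ^ p) ^ a * (y' ^ p) ^ b * (ξ ^ a * ξ' ^ b) := by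
            rw [mul_zpow, mul_zpow]; ring
        _ = (y ^ a * y' ^ b) ^ p := by
            rw [h0, mul_one, mul_pow, ← zpow_natCast, ← zpow_natCast, ← zpow_natCast,
              ← zpow_natCast, ← zpow_mul, ← zpow_mul, ← zpow_mul, ← zpow_mul, mul_comm (p : ℤ) a,
              mul_comm (p : ℤ) b]
    · intro g n d c hgε hgα hd hdp hgd hgσ x hx hσx hs
      obtain ⟨y, ξ, N, hy, hN, hξ, rfl⟩ := sigF_A hx hs
      obtain ⟨r, hr⟩ := root_pow (g : 𝓕 →* 𝓕) (p * N) (Nat.mul_pos hp.pos hN)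
      have h1 : g ξ = ξ ^ r := hr ξ (by rw [mul_comm, pow_mul, hξ, one_pow])
      have h2 : g ε = ε ^ r := hr ε (by rw [pow_mul, hε.pow_eq_one, one_pow])
      obtain ⟨l, hl⟩ := exp_congr hε hp (h2.symm.trans hgε)
      have hξ0 : ξ ≠ 0 := by
        rintro rfl
        rw [zero_pow hN.ne'] at hξ
        exact zero_ne_one hξ
      have hgy : g y ≠ 0 := (map_ne_zero _).2 hy
      refine ⟨g y * (y ^ n)⁻¹ * ξ ^ l, mul_ne_zero (mul_ne_zero hgy
        (inv_ne_zero (pow_ne_zero _ hy))) (zpow_ne_zero _ hξ0), by rw [hσ1]; rfl, ?_⟩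
      have e1 : (y ^ p) ^ n * ((y ^ n)⁻¹) ^ p = 1 := by
        rw [← pow_mul, mul_comm p n, pow_mul, ← mul_pow, mul_inv_cancel₀ (pow_ne_zero _ hy),
          one_pow]
      rw [map_mul, map_pow, h1, hl, zpow_add₀ hξ0, zpow_natCast, mul_comm (p : ℤ) l, zpow_mul,
        zpow_natCast, mul_pow, mul_pow, mul_pow]
      linear_combination (-(g y ^ p * ξ ^ n * (ξ ^ l) ^ p)) * e1
  · -- case B
    obtain ⟨ℋ, ι, γ, S, SF, hfix, hsig, hg⟩ := caseB 𝓕 ε α β hε hα hβ hβ𝓕 σ t e hσε hσα hord hprod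
    have hιinj : Function.Injective ι := ι.injective
    have hNfix : ∀ v : ℋ, γ v = v → ∏ i ∈ Finset.range p, (γ ^ i) v = v ^ p := by
      intro v hv
      rw [Finset.prod_congr rfl fun i _ ↦ fix_pow (K := ℚ_[p]) (Ω := ℋ) hv i, Finset.prod_const,
        Finset.card_range]
    refine ⟨?_, ?_⟩
    · intro x x' hx hx' hσx hσx' hs hs'
      obtain ⟨y, N, hy, hNy, hN, hθ⟩ := hsig x hx hσx hs
      obtain ⟨y', N', hy', hNy', hN', hθ'⟩ := hsig x' hx' hσx' hs'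
      obtain ⟨a, b, hab, h0⟩ := cyc_rel p hp (N * N') (Nat.mul_pos hN hN') (S y / y) (S y' / y')
        (by rw [pow_mul, hθ, one_pow]) (by rw [mul_comm, pow_mul, hθ', one_pow])
      have hv : S (y ^ a * y' ^ b) = y ^ a * y' ^ b := by
        rw [div_zpow, div_zpow, div_mul_div_comm, div_eq_one_iff_eq
          (mul_ne_zero (zpow_ne_zero _ hy) (zpow_ne_zero _ hy'))] at h0
        rw [map_mul, map_zpow₀, map_zpow₀]
        exact h0
      obtain ⟨hγv, w, hw, hσw⟩ := hfix _ hv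
      refine ⟨a, b, w, hab, ?_, hσw, ?_⟩
      · rintro rfl
        rw [map_zero] at hw
        exact mul_ne_zero (zpow_ne_zero _ hy) (zpow_ne_zero _ hy') hw.symm
      · apply hιinj
        rw [map_mul, map_zpow₀, map_zpow₀, ← hNy, ← hNy', map_pow, hw, ← hNfix _ hγv,
          ← Finset.prod_zpow, ← Finset.prod_zpow, ← Finset.prod_mul_distrib]
        refine Finset.prod_congr rfl fun i _ ↦ ?_
        rw [map_mul, map_zpow₀, map_zpow₀]
    · intro g n d c hgε hgα hd hdp hgd hgσ x hx hσx hs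
      obtain ⟨y, N, hy, hNy, hN, hθ⟩ := hsig x hx hσx hs
      obtain ⟨g₁, g₁F, hcγ, hcS⟩ := hg g n d c hgε hgα hdp hgd hgσ
      have hει : IsPrimitiveRoot (ι ε) p := hε.map_of_injective hιinj
      obtain ⟨r, hr⟩ := root_pow (g₁ : ℋ →* ℋ) (p * N) (Nat.mul_pos hp.pos hN)
      have h1 : g₁ (S y / y) = (S y / y) ^ r := hr _ (by rw [mul_comm, pow_mul, hθ, one_pow])
      have h2 : g₁ (ι ε) = (ι ε) ^ r := hr _ (by rw [pow_mul, hει.pow_eq_one, one_pow])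
      rw [g₁F, hgε, map_pow] at h2
      obtain ⟨l, hl⟩ := exp_congr hει hp h2.symm
      have hg₁y : g₁ y ≠ 0 := (map_ne_zero _).2 hy
      have hcS' : ∀ y : ℋ, g₁ (S y) = S (g₁ y) := fun y ↦ AlgEquiv.congr_fun hcS y
      have hcγ' : ∀ (i : ℕ) (y : ℋ), (γ ^ i) (g₁ y) = g₁ ((γ ^ i) y) := fun i y ↦
        AlgEquiv.congr_fun (hcγ.symm.pow_left i) y
      have hv : S (g₁ y * (y ^ r)⁻¹) = g₁ y * (y ^ r)⁻¹ := by
        rw [map_div₀, hcS', div_zpow] at h1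
        have hSy : S y ≠ 0 := (map_ne_zero _).2 hy
        rw [map_mul, map_inv₀, map_zpow₀]
        have e1 : (S y) ^ r ≠ 0 := zpow_ne_zero _ hSy
        have e2 : y ^ r ≠ 0 := zpow_ne_zero _ hy
        field_simp
        field_simp at h1
        linear_combination h1
      obtain ⟨hγv, w, hw, hσw⟩ := hfix _ hv
      have hw0 : w ≠ 0 := by
        rintro rfl
        rw [map_zero] at hw
        exact mul_ne_zero hg₁y (inv_ne_zero (zpow_ne_zero _ hy)) hw.symm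
      refine ⟨x ^ l * w, mul_ne_zero (zpow_ne_zero _ hx) hw0, ?_, ?_⟩
      · rw [map_mul, map_zpow₀, hσx, hσw]
      · have e1 : ι (g x) = ι (x ^ r * w ^ p) := by
          rw [← g₁F, ← hNy, map_prod, map_mul, map_zpow₀, ← hNy, map_pow, hw, ← hNfix _ hγv,
            ← Finset.prod_zpow, ← Finset.prod_mul_distrib]
          refine Finset.prod_congr rfl fun i _ ↦ ?_
          rw [map_mul, map_inv₀, map_zpow₀, hcγ', mul_comm, mul_assoc, inv_mul_cancel₀, mul_one]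
          exact zpow_ne_zero _ ((map_ne_zero _).2 hy)
        rw [hιinj e1, hl, zpow_add₀ hx, zpow_natCast, mul_pow, mul_comm (p : ℤ) l, zpow_mul,
          zpow_natCast, mul_assoc]

end Pool.Agent.Helper35.WY
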