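import Pool.Agent.Helper38.WY.Goals2
import Pool.Agent.Helper42.PW.SEL
import Pool.Agent.Helper96.WY.YSGB
import Pool.Agent.Helper32.RD.VAL
import Pool.Agent.Helper94.PW.NEVL
import Pool.Agent.Helper16.PW.NALG
import Pool.Agent.Helper5.PW.NCNT
import Pool.Agent.Helper60.PW.NHEN
import Pool.Agent.Helper12.PW.NCHG
import Pool.Agent.Helper85.PW.NGRP

/-!
# Project WY: Y_SEL
-/

set_option autoImplicit false
set_option linter.unusedSectionVars false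

namespace Pool.Agent.Helper35.WY

open NumberField Polynomial Module IsDedekindDomain
open Pool.Agent.Helper51.RP Pool.Agent.Helper42.RD Pool.Agent.Helper42.PP Pool.Agent.Helper42.PP1
open Pool.Agent.Helper42.PB Pool.Agent.Helper42.PW Pool.Agent.Helper38.WY
open Pool.Agent.Helper40.RS (bel gw bel_smul lies conj_of_bel free_gw absNorm_free val_smul)
open Pool.Agent.Helper13.RD (eq_gw ram_free eq_of_val)
open Pool.Agent.Helper40.RD (bel_of_above ordW valW)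
open Pool.Agent.Helper59.PP (hom_prod hom_inv hom_div labs_fin dvd_conj)
open Pool.Agent.Helper8.PP (pol_act locAt_of)

/-- The conditions of the Selmer group which do not concern `T`. -/
structure SelP {p : ℕ} [Fact p.Prime] {K M : Type} [Field K] [Field M] [Algebra K M] {F : Type}
    [Field F] [NumberField F] [Algebra M F] (P : (ZMod p)[X]) (δ : M ≃ₐ[K] M) (α : F) (x : Mˣ) :
    Prop where
  pol : Pw p (pol P δ x)
  loc : ∀ W : HeightOneSpectrum (𝓞 F), LocW p W α (algebraMap M F x)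

section main

variable {p : ℕ} [hp : Fact p.Prime] {K M K₁ M₁ J M₂ : Type} [Field K] [NumberField K] [Field M]
  [NumberField M] [Field K₁] [NumberField K₁] [Field M₁] [NumberField M₁] [Field J]
  [NumberField J] [Field M₂] [NumberField M₂] [Algebra K M] [Algebra K K₁] [Algebra K M₁]
  [Algebra M M₁] [Algebra K₁ M₁] [Algebra K J] [Algebra K M₂] [Algebra M M₂] [Algebra K₁ M₂]
  [Algebra M₁ M₂] [Algebra J M₂] {ε : K₁} {δ : M ≃ₐ[K] M} {P : (ZMod p)[X]} {a₀ : M₂ˣ}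

/-- The divisibility at the primes of `calP`. -/
theorem ordp_iff (hs : SitW p K M K₁ M₁ ε δ P) (B : Base p K M K₁ M₁ ε δ P) (a : K₁ˣ)
    (ha : OmType p K ε (a : K₁)) {v : HeightOneSpectrum (𝓞 K)} (hv : v ∈ B.calP)
    {W : HeightOneSpectrum (𝓞 M₁)} (hW : Above W v) :
    (p : ℤ) ∣ ordv W (algebraMap K₁ M₁ (a : K₁)) ↔ ordp p (B.Q v) a = 0 := by
  have := hs.st1
  have := hs.st2
  have := hs.gM
  have := hs.gK
  have := hs.gMK
  have c2 := hs.c2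
  obtain ⟨-, -, -, -, -, -, ucj⟩ := Pool.Agent.Helper16.PP.p_upr p K K₁ B.S
  obtain ⟨Q, hQ⟩ : ∃ Q, Q = bel K₁ W := ⟨_, rfl⟩
  have hWQ : Above W Q := by rw [hQ]; rfl
  have hQv : Above Q v := bel_of hW hWQ
  have g2 : IsGalois K₁ M₁ := IsGalois.tower_top_of_isGalois K K₁ M₁
  rw [(Pool.Agent.Helper40.RD.e_trf p K₁ M₁ c2 W Q hWQ).1 (a : K₁), ordp_zero_iff]
  exact dvd_conj (K := K) hs.prim a ha (ucj v (B.Q v) Q (B.Qa v hv).1 hQv)

/-- The support of the Selmer element. -/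
theorem sel_suppX [Fact (Irreducible P)] (hB : SitB p K M K₁ M₁ J M₂ ε δ P a₀)
    (B : Base p K M K₁ M₁ ε δ P) (D : BaseB B a₀)
    (a : K₁ˣ) (ha : OmType p K ε (a : K₁)) (x : Mˣ)
    (hx : SelP (p := p) P δ ((a₀ : M₂) * algebraMap K₁ M₂ (a : K₁)) x)
    (w : HeightOneSpectrum (𝓞 M)) (hw : w ∉ up M B.S) (hn : ¬ (p : ℤ) ∣ ordv w (x : M)) :
    ∃ v ∈ Spl M₂ B.S, Above w v ∧ ordp p (B.Q v) a ≠ 0 := by
  have hs := hB.sit
  have := hs.st1
  have := hs.st2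
  have := hs.gM
  have := hs.gK
  have := hs.gMK
  have := hB.t1
  have := hB.t2
  have := hB.t3
  have := hB.gM₂
  have := tow_M hB
  have := tow_K hB
  have hcopK : (finrank K K₁).Coprime p := by
    have h1 := Pool.Agent.Helper14.RD.finrank_dvd_pred p K K₁ ε hs.prim hs.gen
    exact Nat.Coprime.coprime_dvd_left h1 ((Nat.coprime_self_sub_left
      (Fact.out : p.Prime).one_le).2 (Nat.coprime_one_left p))
  have hfree : FreeP K w := by
    by_contra hf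
    exact hn (hs.nsp w hf x hx.pol)
  obtain ⟨W', hW'⟩ := exists_bel (M₁ := M₂) w
  have hWw : Above W' w := by rw [← hW']; rfl
  obtain ⟨v, hv⟩ : ∃ v, v = bel K w := ⟨_, rfl⟩
  have hvS : v ∉ B.S := by rw [hv]; exact bel_notMem hw
  have hwv : Above w v := by rw [hv]; rfl
  have hWv : Above W' v := by
    have h1 := bel_bel (K := K) (M := M) W'
    rw [hW', ← hv] at h1
    rw [h1]; rfl
  obtain ⟨Q, hQ⟩ : ∃ Q, Q = bel K₁ W' := ⟨_, rfl⟩
  have hWQ : Above W' Q := by rw [hQ]; rfl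
  have hQv : Above Q v := bel_of hWv hWQ
  obtain ⟨W, hW⟩ : ∃ W, W = bel M₁ W' := ⟨_, rfl⟩
  have hW'W : Above W' W := by rw [hW]; rfl
  have hWv₁ : Above W v := bel_of hWv hW'W
  have hu := D.unr v hvS W' hWv
  have huM := ord_of_unr hWv hWw hu
  have huK := ord_of_unr hWv hWQ hu
  have huW := ord_of_unr hWv hW'W hu
  have hn' : ¬ (p : ℤ) ∣ ordv W' (algebraMap M M₂ (x : M)) := by rw [huM]; exact hn
  have hlocW := (hx.loc W').1 (val_one_above B hvS hWv)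
  have hA0 : algebraMap K₁ M₂ (a : K₁) ≠ 0 := (_root_.map_ne_zero _).2 a.ne_zero
  have hup : W' ∉ up M₂ B.S := notMem_up hvS hWv
  have hnα : ¬ (p : ℤ) ∣ ordv W' ((a₀ : M₂) * algebraMap K₁ M₂ (a : K₁)) :=
    fun h => hn' (hlocW.1 h)
  have hna : ¬ (p : ℤ) ∣ ordv W' (algebraMap K₁ M₂ (a : K₁)) := by
    intro h
    apply hnα
    rw [ordv_mul _ a₀.ne_zero hA0]
    exact dvd_add (D.a₀S _ hup) h
  have hnQ : ¬ (p : ℤ) ∣ ordv Q (a : K₁) := by
    rw [← huK]; exact hna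
  have hQf : FreeP K Q := by
    by_contra hf
    exact hnQ ((Pool.Agent.Helper22.PP.p_omg p K K₁ ε hs.prim hs.gen hcopK).2.2.2.1 a ha Q hf)
  have hcalP : v ∈ B.calP := ⟨hvS, Q, hQv, hQf⟩
  have hWf : FreeP K W := (hs.vis v (val_p_one B hvS)).2.1 w Q W hwv hQv hWv₁ hfree hQf
  have hpW' : W'.valuation M₂ (p : M₂) = 1 := by
    have h1 : algebraMap K M₂ (p : K) = (p : M₂) := map_natCast _ _
    rw [← h1, valW, bel_of_above hWv, val_p_one B hvS, one_pow]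
  have hWf' : FreeP K W' := by
    intro g hg
    by_contra hg1
    have hgW : AlgEquiv.restrictNormal g M₁ = 1 := by
      apply hWf
      intro y
      have h1 := AlgEquiv.restrictNormal_commutes g M₁ y
      have h2 : ∀ z : M₁, W'.valuation M₂ (algebraMap M₁ M₂ z) =
          W.valuation M₁ z ^ W.asIdeal.ramificationIdx' W'.asIdeal := by
        intro z
        rw [valW, bel_of_above hW'W]
      have h3 : W.valuation M₁ (AlgEquiv.restrictNormal g M₁ y) ^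
          W.asIdeal.ramificationIdx' W'.asIdeal =
          W.valuation M₁ y ^ W.asIdeal.ramificationIdx' W'.asIdeal := by
        rw [← h2, ← h2, h1, hg]
      have h4 : W.asIdeal.ramificationIdx' W'.asIdeal ≠ 0 := by
        have h5 := Pool.Agent.Helper79.PP.ram_ne (A := M₁) W'
        rwa [bel_of_above hW'W] at h5
      exact (pow_left_inj₀ zero_le zero_le h4).1 h3
    have hfix : ∀ y : M₁, g (algebraMap M₁ M₂ y) = algebraMap M₁ M₂ y := by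
      intro y
      rw [← AlgEquiv.restrictNormal_commutes g M₁ y, hgW]
      rfl
    exact hn' (v_nsp p K M K₁ M₁ J M₂ ε δ P a₀ hB W' hpW' g hfix hg1 hg a x
      (hlocW.2 hnα))
  refine ⟨v, ⟨hvS, W', hWv, hWf'⟩, hwv, ?_⟩
  intro h0
  have h1 := (ordp_iff hs B a ha hcalP hWv₁).2 h0
  apply hna
  rw [IsScalarTower.algebraMap_apply K₁ M₁ M₂, huW]
  exact h1

/-- The conditions are stable under `δ`. -/
theorem selP_act (hGRP : N_GRP) (hB : SitB p K M K₁ M₁ J M₂ ε δ P a₀)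
    (a : K₁ˣ) (ha : OmType p K ε (a : K₁)) (x : Mˣ)
    (hx : SelP (p := p) P δ ((a₀ : M₂) * algebraMap K₁ M₂ (a : K₁)) x) :
    SelP (p := p) P δ ((a₀ : M₂) * algebraMap K₁ M₂ (a : K₁)) (act δ x) := by
  have := hB.sit.gM
  have := hB.gM₂
  have := tow_M hB
  refine ⟨?_, ?_⟩
  · obtain ⟨y, hy⟩ := hx.pol
    exact ⟨act δ y, by rw [pol_act, hy, map_pow]⟩
  · set g : M₂ ≃ₐ[K] M₂ := AlgEquiv.liftNormal δ M₂ with hg
    have hgM : ∀ y : M, g (algebraMap M M₂ y) = algebraMap M M₂ (δ y) := fun y =>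
      AlgEquiv.liftNormal_commutes δ M₂ y
    intro W
    obtain ⟨W', -, hW'⟩ := Pool.Agent.Helper90.RP.exists_pull (K := K) g W
    have hxx : algebraMap M M₂ ((act δ x : Mˣ) : M) = g (algebraMap M M₂ (x : M)) := (hgM _).symm
    rw [hxx]
    exact locW_conj hGRP (hB.sit.prim.map_of_injective (algebraMap K₁ M₂).injective)
      (mul_ne_zero a₀.ne_zero ((_root_.map_ne_zero _).2 a.ne_zero))
      (Pool.Agent.Helper94.PB.om_alpha hB ha) g hW' (hx.loc W')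

theorem sel_actX (hGRP : N_GRP) (hB : SitB p K M K₁ M₁ J M₂ ε δ P a₀)
    (a : K₁ˣ) (ha : OmType p K ε (a : K₁)) (x : Mˣ)
    (hx : SelP (p := p) P δ ((a₀ : M₂) * algebraMap K₁ M₂ (a : K₁)) x) (i : ℕ) :
    SelP (p := p) P δ ((a₀ : M₂) * algebraMap K₁ M₂ (a : K₁)) (act (δ ^ i) x) := by
  induction i with
  | zero =>
    have h1 : act (δ ^ 0) x = x := by
      rw [pow_zero]; exact Units.ext rfl
    rw [h1]; exact hx
  | succ i ih =>
    have h1 : act (δ ^ (i + 1)) x = act δ (act (δ ^ i) x) := by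
      rw [pow_succ']; exact Units.ext rfl
    rw [h1]
    exact selP_act hGRP hB a ha _ ih

/-- The element `a / aτ` at a prime `W` above `S`. -/
theorem cl_quot (hB : SitB p K M K₁ M₁ J M₂ ε δ P a₀) (S : Finset (HeightOneSpectrum (𝓞 K)))
    (a aτ : K₁ˣ) (hS : LocS p (up K₁ S) (a / aτ)) : ∃ y : K₁ˣ,
    ∀ W ∈ up M₂ S, Cl p W (((a₀ : M₂) * algebraMap K₁ M₂ (a : K₁)) /
      ((a₀ : M₂) * algebraMap K₁ M₂ (aτ : K₁)) * algebraMap K₁ M₂ (y : K₁) ^ p) := by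
  have := tow_K hB
  obtain ⟨y, hy⟩ := hS
  refine ⟨y, fun W hW => ?_⟩
  obtain ⟨v, hv, hWv⟩ := hW
  obtain ⟨Q, hQ⟩ := Pool.Agent.Helper95.RL.exists_below (M := K₁) W
  have hQv : Above Q v := Pool.Agent.Helper96.RL.above_mid hQ hWv
  have h3 : Cl p Q (((a / aτ : K₁ˣ) : K₁) * (y : K₁) ^ p) := hy Q ⟨v, hv, hQv⟩
  have h4 := cl_up hQ h3
  rw [Units.val_div_eq_div_val, map_mul, map_pow, map_div₀] at h4
  rwa [mul_div_mul_left _ _ a₀.ne_zero]

/-- The local conditions at `S` depend only on the local class. -/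
theorem locX_cls (hGRP : N_GRP) (hCHG : N_CHG) (hB : SitB p K M K₁ M₁ J M₂ ε δ P a₀)
    (S : Finset (HeightOneSpectrum (𝓞 K))) (a aτ : K₁ˣ)
    (hS : LocS p (up K₁ S) (a / aτ)) (W : HeightOneSpectrum (𝓞 M₂)) (hW : W ∈ up M₂ S) (x : M₂) :
    LocW p W ((a₀ : M₂) * algebraMap K₁ M₂ (a : K₁)) x ↔
      LocW p W ((a₀ : M₂) * algebraMap K₁ M₂ (aτ : K₁)) x := by
  have hpp : p.Prime := Fact.out
  have hp0 : p ≠ 0 := hpp.ne_zero
  have hA0 : algebraMap K₁ M₂ (a : K₁) ≠ 0 := (_root_.map_ne_zero _).2 a.ne_zero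
  have hB0 : algebraMap K₁ M₂ (aτ : K₁) ≠ 0 := (_root_.map_ne_zero _).2 aτ.ne_zero
  obtain ⟨y, hy⟩ := cl_quot hB S a aτ hS
  have h4 := hy W hW
  have h2 : PwAt p W (((a₀ : M₂) * algebraMap K₁ M₂ (a : K₁)) /
      ((a₀ : M₂) * algebraMap K₁ M₂ (aτ : K₁))) := ⟨algebraMap K₁ M₂ (y : K₁), h4⟩
  have h7 : LocPow p W (((a₀ : M₂) * algebraMap K₁ M₂ (a : K₁)) /
      ((a₀ : M₂) * algebraMap K₁ M₂ (aτ : K₁))) := ⟨algebraMap K₁ M₂ (y : K₁), h4.1⟩
  have h1 : LocAt p W ((a₀ : M₂) * algebraMap K₁ M₂ (a : K₁)) x ↔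
      LocAt p W ((a₀ : M₂) * algebraMap K₁ M₂ (aτ : K₁)) x := by
    refine ⟨locAt_of W hp0 (mul_ne_zero a₀.ne_zero hA0) (mul_ne_zero a₀.ne_zero hB0) h7,
      locAt_of W hp0 (mul_ne_zero a₀.ne_zero hB0) (mul_ne_zero a₀.ne_zero hA0) ?_⟩
    have h3 := locPow_inv W h7
    rwa [inv_div] at h3
  obtain ⟨h5, h6⟩ := nmPw_iff hGRP hCHG (mul_ne_zero a₀.ne_zero hA0) (mul_ne_zero a₀.ne_zero hB0)
    h2 x
  unfold LocW
  rw [h1, h5, h6]

/-- The condition at the places of `T` depends only on the local class. -/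
theorem sig_cls (hSGB : Y_SGB) (hPWA : Y_PWA) (hB : SitB p K M K₁ M₁ J M₂ ε δ P a₀)
    (B : Base p K M K₁ M₁ ε δ P) (a aτ : K₁ˣ) (hS : LocS p (up K₁ B.S) (a / aτ))
    (τ : M₂ →+* ℂ_[p]) (x : M₂)
    (h : SigT p τ (algebraMap K₁ M₂ ε) ((a₀ : M₂) * algebraMap K₁ M₂ (a : K₁)) x) :
    SigT p τ (algebraMap K₁ M₂ ε) ((a₀ : M₂) * algebraMap K₁ M₂ (aτ : K₁)) x := by
  have := tow_K hB
  have hA0 : algebraMap K₁ M₂ (a : K₁) ≠ 0 := (_root_.map_ne_zero _).2 a.ne_zero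
  have hB0 : algebraMap K₁ M₂ (aτ : K₁) ≠ 0 := (_root_.map_ne_zero _).2 aτ.ne_zero
  have hε : IsPrimitiveRoot (algebraMap K₁ M₂ ε) p :=
    hB.sit.prim.map_of_injective (algebraMap K₁ M₂).injective
  obtain ⟨-, -, -, -, -, h6, -⟩ := hSGB p M₂ τ (algebraMap K₁ M₂ ε)
    ((a₀ : M₂) * algebraMap K₁ M₂ (a : K₁)) hε (mul_ne_zero a₀.ne_zero hA0)
  refine h6 _ (mul_ne_zero a₀.ne_zero hB0) ?_ x h
  obtain ⟨y, hy⟩ := cl_quot hB B.S a aτ hS
  have hW : Pool.Agent.Helper32.RDV.wt p τ ∈ up M₂ B.S := by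
    obtain ⟨v, hv⟩ : ∃ v, v = bel K (Pool.Agent.Helper32.RDV.wt p τ) := ⟨_, rfl⟩
    have hWv : Above (Pool.Agent.Helper32.RDV.wt p τ) v := by rw [hv]; rfl
    refine ⟨v, ?_, hWv⟩
    by_contra hn
    exact (Pool.Agent.Helper32.RDV.wt_p (p := p) τ).ne (val_one_above B hn hWv)
  have h5 := Pool.Agent.Helper32.RDV.norm_small_of_val τ
    (b := ((a₀ : M₂) * algebraMap K₁ M₂ (a : K₁)) / ((a₀ : M₂) * algebraMap K₁ M₂ (aτ : K₁)) *
      algebraMap K₁ M₂ (y : K₁) ^ p - 1) (by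
    rw [map_pow]
    exact (hy _ hW).2)
  rw [map_sub, map_one] at h5
  obtain ⟨t, ht, htp⟩ := (hPWA p).2.1 M₂ τ _ h5
  have hy0 : algebraMap K₁ M₂ (y : K₁) ≠ 0 := (_root_.map_ne_zero _).2 y.ne_zero
  refine ⟨t * τ (algebraMap K₁ M₂ (y : K₁))⁻¹, ?_, ?_⟩
  · refine map_mem_closure (f := fun s => s * τ (algebraMap K₁ M₂ (y : K₁))⁻¹) (by fun_prop) ht ?_
    rintro _ ⟨s, rfl⟩
    exact ⟨s * (algebraMap K₁ M₂ (y : K₁))⁻¹, map_mul _ _ _⟩
  · rw [mul_pow, htp, ← map_pow τ, ← map_mul τ]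
    congr 1
    rw [mul_assoc, ← mul_pow, mul_inv_cancel₀ hy0, one_pow, mul_one]

/-- The condition at a visible ramified prime. -/
theorem sel_locX (hGRP : N_GRP) (hB : SitB p K M K₁ M₁ J M₂ ε δ P a₀)
    (B : Base p K M K₁ M₁ ε δ P) (D : BaseB B a₀) (a : K₁ˣ)
    (ha : OmType p K ε (a : K₁)) (x : Mˣ)
    (hx : SelP (p := p) P δ ((a₀ : M₂) * algebraMap K₁ M₂ (a : K₁)) x)
    {v : HeightOneSpectrum (𝓞 K)} (hv : v ∈ Spl M₂ B.S) (he : ordp p (B.Q v) a ≠ 0) :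
    algebraMap (ZMod p) (AdjoinRoot P) (ordp p (B.Q v) a) * B.R v x =
      B.nv v x * algebraMap (ZMod p) (AdjoinRoot P) (B.th v (ast p K₁ M₁ a) + D.s0 v) := by
  unfold Base.R Base.nv kf
  rw [Finset.mul_sum, Finset.sum_mul]
  refine Finset.sum_congr rfl fun i _ => ?_
  have h1 := tame_eqB hB B D hv a he (act (δ ^ i) x)
    (((sel_actX hGRP hB a ha x hx i).loc (D.W₂ v)).1 (val_one_above B hv.1 (D.W₂a v hv).1))
  rw [← mul_assoc, ← map_mul, h1, map_mul]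
  ring

end main

theorem y_sel_of (hGRP : N_GRP) (hCHG : N_CHG) (hSGB : Y_SGB) (hPWA : Y_PWA) : Y_SEL := by
  classical
  intro p _ K M K₁ M₁ J M₂ _ _ _ _ _ _ _ _ _ _ _ _ _ _ _ _ _ _ _ _ _ _ _ ε δ P _ a₀ hB
    T B D aτ n E haτ a ha hloc
  have hs := hB.sit
  rintro ⟨x, hx', hnx⟩
  have hx : SelP (p := p) P δ ((a₀ : M₂) * algebraMap K₁ M₂ (a : K₁)) x := ⟨hx'.pol, hx'.loc⟩
  have hfin : (B.labs a).Finite := labs_fin B a
  -- the decomposition of `x`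
  obtain ⟨d1, d2⟩ := w_dec p K M K₁ M₁ ε δ P hs B x hx.pol
    ((zz B a).filter (fun v ↦ v ∈ Spl M₂ B.S))
    (fun v hv => spl_vis hB B (Finset.mem_filter.1 hv).2) (by
      intro w hw h
      by_contra hn
      obtain ⟨v, hv, hwv, he⟩ := sel_suppX hB B D a ha x hx w hw hn
      refine h v (Finset.mem_filter.2 ⟨(mem_zz B hfin v).2 ⟨?_, he⟩, hv⟩) hwv
      obtain ⟨hvS, W, hW, hWf⟩ := spl_vis hB B hv
      have := hs.st1
      have := hs.st2
      have := hs.gM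
      have := hs.gK
      have := hs.gMK
      obtain ⟨Q, hQ⟩ : ∃ Q, Q = bel K₁ W := ⟨_, rfl⟩
      have hWQ : Above W Q := by rw [hQ]; rfl
      have h1 := ((hs.vis v (val_p_one B hvS)).1 W hW hWf).2.2 Q hWQ
      exact ⟨hvS, Q, h1.2.2, h1.1⟩)
  refine ⟨fun i => B.rho i x, ccB B (Spl M₂ B.S) a x, ⟨?_, ?_, ?_⟩, ?_⟩
  · -- supp
    intro q hq
    by_contra h
    exact hq (if_neg h)
  · -- lam
    funext j
    have h1 : E.h j x = 0 := E.hS j x hx.pol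
      (fun W hW => (locX_cls hGRP hCHG hB B.S a aτ hloc W hW _).1 (hx.loc W))
      (fun τ hτ => sig_cls hSGB hPWA hB B a aτ hloc τ _ (hx'.sig τ hτ))
    have h2 := d1 (E.h j) (E.hP j)
    rw [h1] at h2
    have h3 := sum_ccB B (Spl M₂ B.S) hfin x (fun v => B.til (E.h j) (nrm M M₁ (B.z v)))
    show ((sysB B E.toTauF (Spl M₂ B.S) D.s0 aτ).lam₀ (fun i => B.rho i x) +
      ∑ q ∈ B.lab a, (sysB B E.toTauF (Spl M₂ B.S) D.s0 aτ).lam q
        (ccB B (Spl M₂ B.S) a x q)) j = 0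
    rw [Pi.add_apply, Finset.sum_apply, sysB_lam0]
    simp only [sysB_lam]
    rw [h3]
    exact h2.symm
  · -- loc
    intro q hq hsp
    have hv : q.1.1 ∈ Spl M₂ B.S := hsp
    have hvis := spl_vis hB B hv
    have he : ordp p (B.Q q.1.1) a = (q.1.2 : ZMod p) := (mem_lab B hfin q).1 hq
    have he0 : (q.1.2 : ZMod p) ≠ 0 := Units.ne_zero _
    have h1 := sel_locX hGRP hB B D a ha x hx hv (by rw [he]; exact he0)
    rw [th_ast w_dew hs B a aτ ha hfin hloc hvis, he,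
      ← sum_e B hfin (fun l => B.pi q.1.1 l)] at h1
    have hth := B.thh q.1.1 hvis
    have h2 := d1 (B.R q.1.1) ((Pool.Agent.Helper30.PP.p_fun p K M (finrank K M) δ P finrank_pos
      hs.copm (by rw [← hs.ord]; exact pow_orderOf_eq_one δ) hs.irr hs.dvdP).2 _
      (fun y z => by rw [map_mul, hth])).1
    have h3 := sum_ccB B (Spl M₂ B.S) hfin x (fun v => B.A q.1.1 v)
    have h4 : ccB B (Spl M₂ B.S) a x q = B.nv q.1.1 x := if_pos ⟨hq, hv⟩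
    have h5 : (sysB B E.toTauF (Spl M₂ B.S) D.s0 aτ).R (B.lab a) (fun i => B.rho i x)
        (ccB B (Spl M₂ B.S) a x) q =
        B.R q.1.1 x - B.nv q.1.1 x * algebraMap (ZMod p) (AdjoinRoot P) ((q.1.2 : ZMod p)⁻¹ *
          (B.sv aτ q.1.1 + D.s0 q.1.1 +
            ∑ q' ∈ B.lab a, (q'.1.2 : ZMod p) * B.pi q.1.1 q'.1.1)) := by
      unfold Pool.Agent.Helper17.PP.Sys.R
      rw [sysB_res, sum_er (B.lab a) hq, sum_er (B.lab a) hq]
      show _ + (∑ q' ∈ B.lab a, ccB B (Spl M₂ B.S) a x q' * B.A q.1.1 q'.1.1 -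
          ccB B (Spl M₂ B.S) a x q * B.A q.1.1 q.1.1) +
        ccB B (Spl M₂ B.S) a x q * ((B.A q.1.1 q.1.1 - algebraMap (ZMod p) (AdjoinRoot P)
          ((q.1.2 : ZMod p)⁻¹ * (B.sv aτ q.1.1 + D.s0 q.1.1) + B.pi q.1.1 q.1.1)) +
          (∑ q' ∈ B.lab a, algebraMap (ZMod p) (AdjoinRoot P)
            (- ((q'.1.2 : ZMod p) * (q.1.2 : ZMod p)⁻¹ * B.pi q.1.1 q'.1.1)) -
            algebraMap (ZMod p) (AdjoinRoot P)
            (- ((q.1.2 : ZMod p) * (q.1.2 : ZMod p)⁻¹ * B.pi q.1.1 q.1.1)))) = _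
      rw [h3, h2, h4, ← map_sum, mul_inv_cancel₀ he0]
      have h6 : ∑ q' ∈ B.lab a,
          (- ((q'.1.2 : ZMod p) * (q.1.2 : ZMod p)⁻¹ * B.pi q.1.1 q'.1.1)) =
          - ((q.1.2 : ZMod p)⁻¹ * ∑ q' ∈ B.lab a, (q'.1.2 : ZMod p) * B.pi q.1.1 q'.1.1) := by
        rw [Finset.mul_sum, ← Finset.sum_neg_distrib]
        exact Finset.sum_congr rfl fun q' _ => by ring
      rw [h6]
      simp only [map_mul, map_add, map_neg, map_one, Base.A]
      ring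
    rw [h5]
    have h7 : algebraMap (ZMod p) (AdjoinRoot P) (q.1.2 : ZMod p) *
        algebraMap (ZMod p) (AdjoinRoot P) ((q.1.2 : ZMod p)⁻¹) = 1 := by
      rw [← map_mul, mul_inv_cancel₀ he0, map_one]
    rw [map_mul]
    rw [show B.sv aτ q.1.1 + ∑ q' ∈ B.lab a, (q'.1.2 : ZMod p) * B.pi q.1.1 q'.1.1 + D.s0 q.1.1 =
      B.sv aτ q.1.1 + D.s0 q.1.1 + ∑ q' ∈ B.lab a, (q'.1.2 : ZMod p) * B.pi q.1.1 q'.1.1 by ring]
      at h1
    linear_combination (algebraMap (ZMod p) (AdjoinRoot P) ((q.1.2 : ZMod p)⁻¹)) * h1 -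
      (B.R q.1.1 x) * h7
  · -- nonzero
    rintro ⟨h1, h2⟩
    refine hnx (d2 (fun i => congrFun h1 i) ?_)
    intro v hv
    obtain ⟨hv1, hv2⟩ := Finset.mem_filter.1 hv
    unfold zz at hv1
    obtain ⟨q, hq, rfl⟩ := Finset.mem_image.1 hv1
    have h3 := congrFun h2 q
    unfold ccB at h3
    rw [if_pos ⟨hq, hv2⟩] at h3
    exact h3

theorem y_sel (hPWA : Y_PWA) : Y_SEL :=
  y_sel_of
    (Pool.Agent.Helper85.PW.n_grp (Pool.Agent.Helper16.PW.n_alg Pool.Agent.Helper94.PW.n_evl))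
    (Pool.Agent.Helper12.PW.n_chg (Pool.Agent.Helper16.PW.n_alg Pool.Agent.Helper94.PW.n_evl)
      Pool.Agent.Helper5.PW.n_cnt Pool.Agent.Helper60.PW.n_hen) Pool.Agent.Helper96.WY.y_sgb hPWA

end Pool.Agent.Helper35.WY
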